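import Mathlib

/-!
Counting the samples which complete a family of samples.
-/

set_option autoImplicit false

namespace Pool.Agent.Q289.CC

open Finset

variable {α : Type*} [Fintype α] [DecidableEq α]

/-- The sample `s` completes the family `m`: it contains all the coupons which are in no sample of
`m`, and it separates all the pairs of coupons which `m` does not separate. -/
def Gd (m : Multiset (Finset α)) (s : Finset α) : Prop :=
  (∀ c, (∀ x ∈ m, c ∉ x) → c ∈ s) ∧
    ∀ c c', c ≠ c' → (∀ x ∈ m, (c ∈ x ↔ c' ∈ x)) → ¬ (c ∈ s ↔ c' ∈ s)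

open Classical in
/-- The coupons which are in a sample of `m` and separated from all others. -/
noncomputable def Un (m : Multiset (Finset α)) : Finset α :=
  univ.filter (fun c => (∃ x ∈ m, c ∈ x) ∧ ∀ c', (∀ x ∈ m, (c ∈ x ↔ c' ∈ x)) → c' = c)

theorem mem_Un {m : Multiset (Finset α)} {c : α} : c ∈ Un m ↔
    (∃ x ∈ m, c ∈ x) ∧ ∀ c', (∀ x ∈ m, (c ∈ x ↔ c' ∈ x)) → c' = c := by
  unfold Un
  simp

theorem gd_of {m : Multiset (Finset α)} {s s' : Finset α} (h : s \ Un m = s' \ Un m)
    (hs : Gd m s) : Gd m s' := by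
  have key : ∀ c, c ∉ Un m → (c ∈ s ↔ c ∈ s') := by
    intro c hc
    have h1 : c ∈ s \ Un m ↔ c ∈ s' \ Un m := by rw [h]
    rw [mem_sdiff, mem_sdiff] at h1
    simpa [hc] using h1
  refine ⟨fun c hc => ?_, fun c c' hne hcc => ?_⟩
  · have h1 : c ∉ Un m := by
      intro h2
      obtain ⟨⟨x, hx, hcx⟩, -⟩ := mem_Un.1 h2
      exact hc x hx hcx
    exact (key c h1).1 (hs.1 c hc)
  · have h1 : c ∉ Un m := fun h2 => hne ((mem_Un.1 h2).2 c' hcc).symm
    have h2 : c' ∉ Un m := fun h2 => hne ((mem_Un.1 h2).2 c fun x hx => (hcc x hx).symm)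
    rw [← key c h1, ← key c' h2]
    exact hs.2 c c' hne hcc

/-- At least half of the coupons outside `Un m` are in a completing sample. -/
theorem gd_card {m : Multiset (Finset α)} {s : Finset α} (hs : Gd m s) :
    ((Un m)ᶜ \ s).card ≤ (s \ Un m).card := by
  classical
  have hex : ∀ c ∈ (Un m)ᶜ \ s, ∃ c', c' ≠ c ∧ (∀ x ∈ m, (c ∈ x ↔ c' ∈ x)) := by
    intro c hc
    rw [mem_sdiff, mem_compl] at hc
    obtain ⟨h1, h2⟩ := hc
    have h3 : ∃ x ∈ m, c ∈ x := by
      by_contra hcon
      push Not at hcon
      exact h2 (hs.1 c hcon)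
    by_contra hcon
    push Not at hcon
    apply h1
    rw [mem_Un]
    refine ⟨h3, fun c' hc' => ?_⟩
    by_contra hne
    obtain ⟨x, hx, h4⟩ := hcon c' hne
    exact h4.elim (fun h => h.2 ((hc' x hx).1 h.1)) (fun h => h.1 ((hc' x hx).2 h.2))
  choose! f hf1 hf2 using hex
  refine card_le_card_of_injOn f ?_ ?_
  · intro c hc
    have h1 := hf1 c hc
    have h2 := hf2 c hc
    have hc' : c ∉ s := by
      have := mem_coe.1 hc
      rw [mem_sdiff] at this
      exact this.2
    rw [mem_coe, mem_sdiff]
    constructor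
    · by_contra hcon
      exact hs.2 c (f c) h1.symm h2 ⟨fun h => absurd h hc', fun h => absurd h hcon⟩
    · intro h3
      exact h1 ((mem_Un.1 h3).2 c fun x hx => (h2 x hx).symm).symm
  · intro c hc d hd hcd
    by_contra hne
    have hc' : c ∉ s := by
      have := mem_coe.1 hc
      rw [mem_sdiff] at this
      exact this.2
    have hd' : d ∉ s := by
      have := mem_coe.1 hd
      rw [mem_sdiff] at this
      exact this.2
    have h2 := hf2 c hc
    have h3 := hf2 d hd
    rw [hcd] at h2
    exact hs.2 c d hne (fun x hx => (h2 x hx).trans (h3 x hx).symm)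
      ⟨fun h => absurd h hc', fun h => absurd h hd'⟩

open Classical in
/-- The number of completing samples of size `k`. -/
noncomputable def Nk (m : Multiset (Finset α)) (k : ℕ) : ℕ :=
  (univ.filter (fun s : Finset α => s.card = k ∧ Gd m s)).card

theorem fiber_card (U A : Finset α) (hA : Disjoint A U) (j : ℕ) :
    (univ.filter (fun s : Finset α => s.card = A.card + j ∧ s \ U = A)).card = U.card.choose j := by
  classical
  rw [← card_powersetCard]
  symm
  refine card_bij (fun B _ => A ∪ B) ?_ ?_ ?_
  · intro B hB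
    rw [mem_powersetCard] at hB
    have hd : Disjoint A B := hA.mono_right hB.1
    rw [mem_filter]
    refine ⟨mem_univ _, ?_, ?_⟩
    · rw [card_union_of_disjoint hd, hB.2]
    · ext c
      rw [mem_sdiff, mem_union]
      constructor
      · rintro ⟨h1 | h1, h2⟩
        · exact h1
        · exact absurd (hB.1 h1) h2
      · intro h1
        exact ⟨Or.inl h1, fun h2 => disjoint_left.1 hA h1 h2⟩
  · intro B hB B' hB' h
    rw [mem_powersetCard] at hB hB'
    ext c
    constructor
    · intro hc
      have h1 : c ∈ A ∪ B' := by rw [← h]; exact mem_union_right _ hc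
      rcases mem_union.1 h1 with h2 | h2
      · exact absurd (hB.1 hc) (disjoint_left.1 hA h2)
      · exact h2
    · intro hc
      have h1 : c ∈ A ∪ B := by rw [h]; exact mem_union_right _ hc
      rcases mem_union.1 h1 with h2 | h2
      · exact absurd (hB'.1 hc) (disjoint_left.1 hA h2)
      · exact h2
  · intro s hs
    rw [mem_filter] at hs
    obtain ⟨-, h1, h2⟩ := hs
    refine ⟨s ∩ U, ?_, ?_⟩
    · rw [mem_powersetCard]
      refine ⟨inter_subset_right, ?_⟩
      have h3 := card_sdiff_add_card_inter s U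
      rw [h2, h1] at h3
      omega
    · rw [← h2]
      exact sdiff_union_inter s U

theorem fiber_zero (U A : Finset α) (k : ℕ) (hk : k < A.card) :
    (univ.filter (fun s : Finset α => s.card = k ∧ s \ U = A)).card = 0 := by
  classical
  rw [card_eq_zero, filter_eq_empty_iff]
  rintro s - ⟨h1, h2⟩
  have h3 : A.card ≤ s.card := by
    rw [← h2]
    exact card_le_card sdiff_subset
  omega

theorem choose_step {n k a w N : ℕ} (hk : 2 * (k + 1) ≤ n) (hN : N + w = n) (hw : w ≤ 2 * a)
    (haw : a ≤ w) (hak : a ≤ k) :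
    (n - k) * N.choose (k - a) ≤ (k + 1) * N.choose (k + 1 - a) := by
  obtain ⟨j, rfl⟩ : ∃ j, k = a + j := ⟨k - a, by omega⟩
  have e1 : a + j - a = j := by omega
  have e2 : a + j + 1 - a = j + 1 := by omega
  rw [e1, e2]
  rcases lt_or_ge N j with h | h
  · rw [Nat.choose_eq_zero_of_lt h]
    simp
  have h1 : N.choose (j + 1) * (j + 1) = N.choose j * (N - j) := Nat.choose_succ_right_eq N j
  have h2 : (n - (a + j)) * (j + 1) ≤ (a + j + 1) * (N - j) := by
    obtain ⟨b, hb⟩ : ∃ b, w = a + b := ⟨w - a, by omega⟩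
    have hba : b ≤ a := by omega
    obtain ⟨q, hq⟩ : ∃ q, N = j + q := ⟨N - j, by omega⟩
    have e3 : n - (a + j) = q + b := by omega
    have e4 : N - j = q := by omega
    rw [e3, e4]
    have h5 : a + j + 1 ≤ q + b := by omega
    nlinarith
  have h3 : (n - (a + j)) * N.choose j * (j + 1) ≤ (a + j + 1) * N.choose (j + 1) * (j + 1) := by
    calc (n - (a + j)) * N.choose j * (j + 1) = (n - (a + j)) * (j + 1) * N.choose j := by ring
      _ ≤ (a + j + 1) * (N - j) * N.choose j := Nat.mul_le_mul_right _ h2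
      _ = (a + j + 1) * (N.choose j * (N - j)) := by ring
      _ = _ := by rw [← h1]; ring
  exact Nat.le_of_mul_le_mul_right h3 (Nat.succ_pos j)

/-- The key inequality. -/
theorem Nk_step (m : Multiset (Finset α)) {k : ℕ} (hk : 2 * (k + 1) ≤ Fintype.card α) :
    (Fintype.card α - k) * Nk m k ≤ (k + 1) * Nk m (k + 1) := by
  classical
  obtain ⟨V, hV⟩ : ∃ V : Finset (Finset α), V = univ.filter (fun A => Disjoint A (Un m) ∧
      ∃ s, Gd m s ∧ s \ Un m = A) := ⟨_, rfl⟩
  have hfib : ∀ k, Nk m k = ∑ A ∈ V,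
      (univ.filter (fun s : Finset α => s.card = k ∧ s \ Un m = A)).card := by
    intro k
    unfold Nk
    rw [card_eq_sum_card_fiberwise (f := fun s => s \ Un m) (t := V)]
    · refine sum_congr rfl fun A hA => ?_
      rw [filter_filter]
      congr 1
      ext s
      simp only [mem_filter, mem_univ, true_and]
      constructor
      · rintro ⟨⟨h1, -⟩, h2⟩
        exact ⟨h1, h2⟩
      · rintro ⟨h1, h2⟩
        rw [hV, mem_filter] at hA
        obtain ⟨-, -, s', hs', hs''⟩ := hA
        exact ⟨⟨h1, gd_of (hs''.trans h2.symm) hs'⟩, h2⟩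
    · intro s hs
      rw [mem_coe, mem_filter] at hs
      rw [mem_coe, hV, mem_filter]
      exact ⟨mem_univ _, sdiff_disjoint, s, hs.2.2, rfl⟩
  rw [hfib k, hfib (k + 1), mul_sum, mul_sum]
  refine sum_le_sum fun A hA => ?_
  rw [hV, mem_filter] at hA
  obtain ⟨-, hd, s, hs, hsA⟩ := hA
  rcases lt_or_ge k A.card with h | h
  · rw [fiber_zero _ _ _ h]
    simp
  · have hc := gd_card hs
    rw [hsA] at hc
    -- the number of coupons outside `Un m`
    have h1 : ((Un m)ᶜ \ s).card + A.card = (Un m)ᶜ.card := by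
      rw [← hsA]
      have e : s \ Un m = (Un m)ᶜ ∩ s := by
        ext c
        simp only [mem_sdiff, mem_inter, mem_compl]
        tauto
      rw [e]
      exact card_sdiff_add_card_inter _ _
    have h2 : (Un m).card + (Un m)ᶜ.card = Fintype.card α := card_add_card_compl _
    have e1 := fiber_card (Un m) A hd (k - A.card)
    have e2 := fiber_card (Un m) A hd (k + 1 - A.card)
    have e3 : A.card + (k - A.card) = k := by omega
    have e4 : A.card + (k + 1 - A.card) = k + 1 := by omega
    rw [e3] at e1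
    rw [e4] at e2
    rw [e1, e2]
    exact choose_step hk h2 (by omega) (by omega) h

theorem Nk_mono_step (m : Multiset (Finset α)) {k : ℕ} (hk : 2 * (k + 1) ≤ Fintype.card α) :
    Nk m k * (Fintype.card α).choose (k + 1) ≤ Nk m (k + 1) * (Fintype.card α).choose k := by
  have h1 := Nk_step m hk
  have h2 := Nat.choose_succ_right_eq (Fintype.card α) k
  have h3 : Nk m k * (Fintype.card α).choose (k + 1) * (k + 1) ≤
      Nk m (k + 1) * (Fintype.card α).choose k * (k + 1) := by
    calc Nk m k * (Fintype.card α).choose (k + 1) * (k + 1)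
        = Nk m k * ((Fintype.card α).choose (k + 1) * (k + 1)) := by ring
      _ = (Fintype.card α).choose k * ((Fintype.card α - k) * Nk m k) := by rw [h2]; ring
      _ ≤ (Fintype.card α).choose k * ((k + 1) * Nk m (k + 1)) := Nat.mul_le_mul_left _ h1
      _ = _ := by ring
  exact Nat.le_of_mul_le_mul_right h3 (Nat.succ_pos k)

end Pool.Agent.Q289.CC
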