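import Pool.Agent.Q289.CC.Main

/-!
Existence of samplings, and the two-point case.
-/

set_option autoImplicit false

namespace Pool.Agent.Q289.CC

open Finset MeasureTheory ProbabilityTheory
open scoped ENNReal

variable {C L : Type} [Fintype C] [DecidableEq C] [DecidableEq L]

/-- The weights of the samples. -/
noncomputable def wt (K : PMF ℕ) (s : Finset C) : ℝ≥0∞ :=
  K s.card / ((Fintype.card C).choose s.card : ℕ)

omit [DecidableEq C] in
theorem wt_sum (K : PMF ℕ) (hK : ∀ k, Fintype.card C < k → K k = 0) :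
    ∑ s : Finset C, wt K s = 1 := by
  classical
  rw [← sum_fiberwise_of_maps_to (g := fun s : Finset C => s.card)
    (t := range (Fintype.card C + 1))
    (fun s _ => mem_range.2 (Nat.lt_succ_of_le (card_le_univ s)))]
  have h1 : ∀ k ∈ range (Fintype.card C + 1),
      ∑ s ∈ univ.filter (fun s : Finset C => s.card = k), wt K s = K k := by
    intro k hk
    have h2 : ∀ s ∈ univ.filter (fun s : Finset C => s.card = k), wt K s =
        K k / ((Fintype.card C).choose k : ℕ) := by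
      intro s hs
      unfold wt
      rw [(mem_filter.1 hs).2]
    rw [sum_congr rfl h2, sum_const]
    have h3 : (univ.filter (fun s : Finset C => s.card = k)).card = (Fintype.card C).choose k := by
      rw [← card_univ, ← card_powersetCard]
      congr 1
      ext s
      simp [mem_powersetCard]
    rw [h3, nsmul_eq_mul]
    have h4 : 0 < (Fintype.card C).choose k :=
      Nat.choose_pos (by have := mem_range.1 hk; omega)
    exact ENNReal.mul_div_cancel (by exact_mod_cast h4.ne') (ENNReal.natCast_ne_top _)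
  rw [sum_congr rfl h1]
  have h5 := K.tsum_coe
  rw [tsum_eq_sum (s := range (Fintype.card C + 1))] at h5
  · exact h5
  · intro k hk
    exact hK k (by rw [mem_range] at hk; omega)

/-- The law of one sample. -/
noncomputable def sPMF (K : PMF ℕ) (hK : ∀ k, Fintype.card C < k → K k = 0) : PMF (Finset C) :=
  PMF.ofFintype (wt K) (wt_sum K hK)

/-- Samplings exist. -/
theorem exists_sampling (K : PMF ℕ) (hK : ∀ k, Fintype.card C < k → K k = 0) :
    ∃ (Ω : Type) (_ : MeasurableSpace Ω) (P : Measure Ω) (_ : IsProbabilityMeasure P)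
      (S : ℕ → Ω → Finset C), Sampling P K S := by
  refine ⟨ℕ → Finset C, inferInstance, Measure.infinitePi (fun _ : ℕ => (sPMF K hK).toMeasure),
    inferInstance, fun (i : ℕ) (ω : ℕ → Finset C) => ω i,
    ⟨fun i => measurable_pi_apply i, ?_, fun i s => ?_⟩⟩
  · exact iIndepFun_infinitePi (P := fun _ : ℕ => (sPMF K hK).toMeasure)
      (X := fun _ ω => ω) (fun _ => measurable_id)
  · have hs : MeasurableSet ({s} : Set (Finset C)) := trivial
    have h0 : MeasurePreserving (fun ω : ℕ → Finset C => ω i)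
        (Measure.infinitePi (fun _ : ℕ => (sPMF K hK).toMeasure)) (sPMF K hK).toMeasure :=
      measurePreserving_eval_infinitePi (fun _ : ℕ => (sPMF K hK).toMeasure) i
    rw [h0.measure_preimage hs.nullMeasurableSet, PMF.toMeasure_apply_singleton _ _ hs]
    rfl

/-- The two-point case. -/
theorem two_point (σ : C ≃ L) {k₁ k₂ : ℕ} (h12 : k₁ < k₂) (h2 : 2 * k₂ ≤ Fintype.card C)
    {K : PMF ℕ} (hK : K k₁ + K k₂ = 1)
    {Ω Ω₁ Ω₂ : Type} [MeasurableSpace Ω] [MeasurableSpace Ω₁] [MeasurableSpace Ω₂]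
    {P : Measure Ω} {P₁ : Measure Ω₁} {P₂ : Measure Ω₂} [IsProbabilityMeasure P]
    [IsProbabilityMeasure P₁] [IsProbabilityMeasure P₂] {S : ℕ → Ω → Finset C}
    {S₁ : ℕ → Ω₁ → Finset C} {S₂ : ℕ → Ω₂ → Finset C} (hS : Sampling P K S)
    (hS₁ : Sampling P₁ (PMF.pure k₁) S₁) (hS₂ : Sampling P₂ (PMF.pure k₂) S₂) :
    ∫⁻ ω, recTime σ (fun i => S₂ i ω) ∂P₂ ≤ ∫⁻ ω, recTime σ (fun i => S i ω) ∂P ∧
    ∫⁻ ω, recTime σ (fun i => S i ω) ∂P ≤ ∫⁻ ω, recTime σ (fun i => S₁ i ω) ∂P₁ := by
  classical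
  have hz : ∀ k, k ≠ k₁ → k ≠ k₂ → K k = 0 := by
    intro k h1 h3
    have h4 := K.tsum_coe
    have h5 : K k + (K k₁ + K k₂) ≤ ∑' k, K k := by
      have h6 := ENNReal.sum_le_tsum (f := fun k => K k) ({k, k₁, k₂} : Finset ℕ)
      rw [sum_insert (by simp [h1, h3]), sum_insert (by simp [h12.ne]), sum_singleton] at h6
      exact h6
    rw [h4, hK] at h5
    have h6 : K k + 1 ≤ 0 + 1 := by rw [zero_add]; exact h5
    exact le_antisymm ((ENNReal.add_le_add_iff_right ENNReal.one_ne_top).1 h6) zero_le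
  have hp : ∀ k₀ k : ℕ, (PMF.pure k₀ : PMF ℕ) k = if k = k₀ then 1 else 0 := fun k₀ k => by
    rw [PMF.pure_apply]
    by_cases h : k = k₀
    · rw [if_pos h, if_pos h]
    · rw [if_neg h, if_neg h]
  have hz0 : ∀ k₀ k : ℕ, k₀ ≤ k₂ → Fintype.card C < 2 * k → (PMF.pure k₀ : PMF ℕ) k = 0 := by
    intro k₀ k h0 hk
    rw [hp, if_neg (by omega)]
  have hKz : ∀ k, Fintype.card C < 2 * k → K k = 0 := fun k hk => hz k (by omega) (by omega)
  have hK1 : K k₁ ≤ 1 := by rw [← hK]; exact le_self_add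
  -- tail sums
  have hsumK : ∀ j, ∑ k ∈ Ico j (Fintype.card C / 2 + 1), K k =
      (if j ≤ k₁ then K k₁ else 0) + (if j ≤ k₂ then K k₂ else 0) := by
    intro j
    have e1 : (if j ≤ k₁ then K k₁ else 0) = ∑ k ∈ Ico j (Fintype.card C / 2 + 1),
        if k = k₁ then K k₁ else 0 := by
      rw [sum_ite_eq']
      by_cases h : j ≤ k₁
      · rw [if_pos h, if_pos (mem_Ico.2 ⟨h, by omega⟩)]
      · rw [if_neg h, if_neg (fun h' => h (mem_Ico.1 h').1)]
    have e2 : (if j ≤ k₂ then K k₂ else 0) = ∑ k ∈ Ico j (Fintype.card C / 2 + 1),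
        if k = k₂ then K k₂ else 0 := by
      rw [sum_ite_eq']
      by_cases h : j ≤ k₂
      · rw [if_pos h, if_pos (mem_Ico.2 ⟨h, by omega⟩)]
      · rw [if_neg h, if_neg (fun h' => h (mem_Ico.1 h').1)]
    rw [e1, e2, ← sum_add_distrib]
    refine sum_congr rfl fun k _ => ?_
    by_cases h1 : k = k₁
    · subst h1
      rw [if_pos rfl, if_neg h12.ne, add_zero]
    · by_cases h3 : k = k₂
      · subst h3
        rw [if_neg h1, if_pos rfl, zero_add]
      · rw [if_neg h1, if_neg h3, hz k h1 h3, add_zero]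
  have hsump : ∀ k₀ j, k₀ ≤ k₂ → ∑ k ∈ Ico j (Fintype.card C / 2 + 1), (PMF.pure k₀ : PMF ℕ) k =
      if j ≤ k₀ then 1 else 0 := by
    intro k₀ j h0
    simp only [hp]
    rw [sum_ite_eq']
    by_cases h : j ≤ k₀
    · rw [if_pos h, if_pos (mem_Ico.2 ⟨h, by omega⟩)]
    · rw [if_neg h, if_neg (fun h' => h (mem_Ico.1 h').1)]
  constructor
  · refine ET_le hS hS₂ σ hKz (fun k hk => hz0 k₂ k le_rfl hk) fun j => ?_
    rw [hsumK, hsump k₂ j le_rfl]
    by_cases h3 : j ≤ k₂
    · rw [if_pos h3, if_pos h3, ← hK]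
      gcongr
      split_ifs
      · exact le_rfl
      · exact zero_le
    · rw [if_neg h3, if_neg h3, if_neg (by omega)]
      simp
  · refine ET_le hS₁ hS σ (fun k hk => hz0 k₁ k h12.le hk) hKz fun j => ?_
    rw [hsumK, hsump k₁ j h12.le]
    by_cases h3 : j ≤ k₁
    · rw [if_pos h3, if_pos h3, if_pos (by omega), hK]
    · rw [if_neg h3]
      exact zero_le

end Pool.Agent.Q289.CC
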