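import Pool.Agent.Q289.CC.Model

/-!
Monotonicity of the recovery time in the law of the sample sizes.
-/

set_option autoImplicit false

namespace Pool.Agent.Q289.CC

open Finset MeasureTheory ProbabilityTheory
open scoped ENNReal

variable {C L : Type} [Fintype C] [DecidableEq C] [DecidableEq L]

open Classical in
/-- The indicator of recovery. -/
noncomputable def G (m : Multiset (Finset C)) : ℝ≥0∞ := if Rec m then 1 else 0

/-- The probability that a uniform sample of size `k` completes `m`. -/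
noncomputable def hk (m : Multiset (Finset C)) (k : ℕ) : ℝ≥0∞ :=
  (Nk m k : ℝ≥0∞) / ((Fintype.card C).choose k : ℕ)

theorem hk_step (m : Multiset (Finset C)) {k : ℕ} (hk' : 2 * (k + 1) ≤ Fintype.card C) :
    hk m k ≤ hk m (k + 1) := by
  unfold hk
  have h1 : 0 < (Fintype.card C).choose k := Nat.choose_pos (by omega)
  have h2 : 0 < (Fintype.card C).choose (k + 1) := Nat.choose_pos (by omega)
  rw [ENNReal.div_le_iff (by exact_mod_cast h1.ne') (ENNReal.natCast_ne_top _),
    mul_comm, ← mul_div_assoc, ENNReal.le_div_iff_mul_le (Or.inl (by exact_mod_cast h2.ne'))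
      (Or.inl (ENNReal.natCast_ne_top _))]
  have h3 := Nk_mono_step m hk'
  have h4 : ((Nk m k * (Fintype.card C).choose (k + 1) : ℕ) : ℝ≥0∞) ≤
      ((Nk m (k + 1) * (Fintype.card C).choose k : ℕ) : ℝ≥0∞) := by exact_mod_cast h3
  push_cast at h4
  rw [mul_comm ((Fintype.card C).choose k : ℝ≥0∞)]
  exact h4

theorem op_G (K : ℕ → ℝ≥0∞) (m : Multiset (Finset C)) :
    op K G m = ∑ k ∈ range (Fintype.card C + 1), K k * hk m k := by
  classical
  unfold op
  rw [← sum_fiberwise_of_maps_to (g := fun s : Finset C => s.card)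
    (t := range (Fintype.card C + 1))
    (fun s _ => mem_range.2 (Nat.lt_succ_of_le (card_le_univ s)))]
  refine sum_congr rfl fun k _ => ?_
  have h1 : ∑ s ∈ univ.filter (fun s : Finset C => s.card = k),
      K s.card / ((Fintype.card C).choose s.card : ℕ) * G (s ::ₘ m) =
      ∑ s ∈ univ.filter (fun s : Finset C => s.card = k),
        K k / ((Fintype.card C).choose k : ℕ) * (if Gd m s then 1 else 0) := by
    refine sum_congr rfl fun s hs => ?_
    rw [(mem_filter.1 hs).2]
    unfold G
    congr 1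
    by_cases h : Gd m s
    · rw [if_pos h, if_pos ((rec_cons m s).2 h)]
    · rw [if_neg h, if_neg (fun h' => h ((rec_cons m s).1 h'))]
  rw [h1, ← mul_sum, sum_boole, filter_filter]
  unfold hk Nk
  rw [ENNReal.div_eq_inv_mul, ENNReal.div_eq_inv_mul]
  have e : (univ.filter (fun s : Finset C => s.card = k ∧ Gd m s)).card =
      (univ.filter (fun s : Finset C => s.card = k ∧ Gd m s)).card := rfl
  ring

/-- Abel summation. -/
theorem abel_le {M : ℕ} {h K K' : ℕ → ℝ≥0∞} (hh : ∀ k < M, h k ≤ h (k + 1))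
    (hK : ∀ j ≤ M, ∑ k ∈ Ico j (M + 1), K k ≤ ∑ k ∈ Ico j (M + 1), K' k) :
    ∑ k ∈ range (M + 1), K k * h k ≤ ∑ k ∈ range (M + 1), K' k * h k := by
  obtain ⟨Δ, hΔ⟩ : ∃ Δ : ℕ → ℝ≥0∞, Δ = fun j => if j = 0 then h 0 else h j - h (j - 1) := ⟨_, rfl⟩
  have htel : ∀ k ≤ M, h k = ∑ j ∈ range (k + 1), Δ j := by
    intro k
    induction k with
    | zero => intro _; simp [hΔ]
    | succ k ih =>
      intro hk
      rw [sum_range_succ, ← ih (by omega), hΔ]
      simp only [Nat.succ_ne_zero, if_false, Nat.add_sub_cancel]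
      rw [add_tsub_cancel_of_le (hh k (by omega))]
  have key : ∀ W : ℕ → ℝ≥0∞, ∑ k ∈ range (M + 1), W k * h k =
      ∑ j ∈ range (M + 1), Δ j * ∑ k ∈ Ico j (M + 1), W k := by
    intro W
    have h1 : ∀ k ∈ range (M + 1), W k * h k = ∑ j ∈ range (k + 1), W k * Δ j := by
      intro k hk
      rw [htel k (by have := mem_range.1 hk; omega), mul_sum]
    rw [sum_congr rfl h1]
    have h2 : ∀ j ∈ range (M + 1), Δ j * ∑ k ∈ Ico j (M + 1), W k =
        ∑ k ∈ Ico j (M + 1), W k * Δ j := by
      intro j _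
      rw [mul_sum]
      exact sum_congr rfl fun k _ => mul_comm _ _
    rw [sum_congr rfl h2]
    refine sum_comm' fun k j => ?_
    simp only [mem_range, mem_Ico]
    omega
  rw [key K, key K']
  refine sum_le_sum fun j hj => ?_
  exact mul_le_mul_right (hK j (by have := mem_range.1 hj; omega)) _

/-- Larger samples (at most half of the coupons) are more likely to complete a family. -/
theorem op_G_le {K K' : ℕ → ℝ≥0∞} (hK0 : ∀ k, Fintype.card C < 2 * k → K k = 0)
    (hK0' : ∀ k, Fintype.card C < 2 * k → K' k = 0)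
    (hK : ∀ j, ∑ k ∈ Ico j (Fintype.card C / 2 + 1), K k ≤
      ∑ k ∈ Ico j (Fintype.card C / 2 + 1), K' k) (m : Multiset (Finset C)) :
    op K G m ≤ op K' G m := by
  rw [op_G, op_G]
  have key : ∀ W : ℕ → ℝ≥0∞, (∀ k, Fintype.card C < 2 * k → W k = 0) →
      ∑ k ∈ range (Fintype.card C + 1), W k * hk m k =
      ∑ k ∈ range (Fintype.card C / 2 + 1), W k * hk m k := by
    intro W hW
    symm
    apply sum_subset (range_subset_range.2 (by omega))
    intro k _ hk2
    rw [hW k (by rw [mem_range] at hk2; omega), zero_mul]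
  rw [key K hK0, key K' hK0']
  exact abel_le (fun k hk => hk_step m (by omega)) (fun j _ => hK j)

/-! ### the expectation -/

omit [Fintype C] in
theorem recovered_succ {σ : C ≃ L} {S : ℕ → Finset C} {t : ℕ} (h : Recovered σ S t) :
    Recovered σ S (t + 1) := by
  refine ⟨fun c => ?_, fun τ hτ => h.2 τ fun i hi => hτ i (by omega)⟩
  obtain ⟨i, hi, hc⟩ := h.1 c
  exact ⟨i, by omega, hc⟩

omit [Fintype C] in
theorem recovered_mono {σ : C ≃ L} {S : ℕ → Finset C} {t t' : ℕ} (htt : t ≤ t')
    (h : Recovered σ S t) : Recovered σ S t' := by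
  induction t', htt using Nat.le_induction with
  | base => exact h
  | succ n _ ih => exact recovered_succ ih

omit [Fintype C] in
open Classical in
theorem recTime_eq (σ : C ≃ L) (S : ℕ → Finset C) :
    recTime σ S = ∑' t : ℕ, (1 - (if Recovered σ S t then (1 : ℝ≥0∞) else 0)) := by
  unfold recTime
  by_cases hex : ∃ t, Recovered σ S t
  · obtain ⟨N, hN⟩ : ∃ N, N = Nat.find hex := ⟨_, rfl⟩
    have h1 : Recovered σ S N := by rw [hN]; exact Nat.find_spec hex
    have h2 : ∀ t < N, ¬ Recovered σ S t := fun t ht => Nat.find_min hex (by rw [← hN]; exact ht)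
    have e1 : (⨅ (t : ℕ) (_ : Recovered σ S t), (t : ℝ≥0∞)) = N := by
      apply le_antisymm
      · exact iInf₂_le N h1
      · refine le_iInf₂ fun t ht => ?_
        by_contra hcon
        push Not at hcon
        exact h2 t (by exact_mod_cast hcon) ht
    rw [e1, tsum_eq_sum (s := range N)]
    · rw [sum_congr rfl (g := fun _ => (1 : ℝ≥0∞))]
      · simp
      · intro t ht
        rw [if_neg (h2 t (mem_range.1 ht)), tsub_zero]
    · intro t ht
      rw [mem_range, not_lt] at ht
      rw [if_pos (recovered_mono ht h1), tsub_self]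
  · push Not at hex
    have e1 : (⨅ (t : ℕ) (_ : Recovered σ S t), (t : ℝ≥0∞)) = ⊤ := by
      rw [iInf₂_eq_top]
      intro t ht
      exact absurd ht (hex t)
    rw [e1]
    symm
    have e2 : ∀ t, (1 - (if Recovered σ S t then (1 : ℝ≥0∞) else 0)) = 1 := by
      intro t
      rw [if_neg (hex t), tsub_zero]
    simp only [e2]
    exact ENNReal.tsum_const_eq_top_of_ne_zero one_ne_zero

section

variable {Ω : Type} [MeasurableSpace Ω] {P : Measure Ω} [IsProbabilityMeasure P] {K : PMF ℕ}
  {S : ℕ → Ω → Finset C}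

theorem ET_eq (h : Sampling P K S) (σ : C ≃ L) :
    ∫⁻ ω, recTime σ (fun i => S i ω) ∂P = ∑' t : ℕ, (1 - (op (C := C) (fun k => K k))^[t] G 0) := by
  have e : ∀ ω, recTime σ (fun i => S i ω) = ∑' t : ℕ, (1 - G (msOf (fun i => S i ω) t)) := by
    intro ω
    rw [recTime_eq]
    refine tsum_congr fun t => ?_
    unfold G
    congr 1
    by_cases h1 : Recovered σ (fun i => S i ω) t
    · rw [if_pos h1, if_pos ((recovered_iff σ _ t).1 h1)]
    · rw [if_neg h1, if_neg (fun h2 => h1 ((recovered_iff σ _ t).2 h2))]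
  simp only [e]
  rw [lintegral_tsum fun t => (msOf_meas h (fun m => 1 - G m) t).aemeasurable]
  refine tsum_congr fun t => ?_
  have hle : ∀ m : Multiset (Finset C), G m ≤ 1 := by
    intro m
    unfold G
    split_ifs
    · exact le_rfl
    · exact zero_le
  rw [lintegral_sub (msOf_meas h G t), law_iter h, lintegral_one, measure_univ]
  · rw [law_iter h]
    rw [← law_iter h]
    refine ne_top_of_le_ne_top ENNReal.one_ne_top ?_
    calc ∫⁻ ω, G (msOf (fun i => S i ω) t) ∂P ≤ ∫⁻ _, 1 ∂P := lintegral_mono fun ω => hle _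
      _ = 1 := by simp
  · exact Filter.Eventually.of_forall fun ω => hle _

end

/-- The main comparison. -/
theorem ET_le {Ω Ω' : Type} [MeasurableSpace Ω] [MeasurableSpace Ω'] {P : Measure Ω}
    {P' : Measure Ω'} [IsProbabilityMeasure P] [IsProbabilityMeasure P'] {K K' : PMF ℕ}
    {S : ℕ → Ω → Finset C} {S' : ℕ → Ω' → Finset C} (h : Sampling P K S) (h' : Sampling P' K' S')
    (σ : C ≃ L) (hK0 : ∀ k, Fintype.card C < 2 * k → K k = 0)
    (hK0' : ∀ k, Fintype.card C < 2 * k → K' k = 0)
    (hK : ∀ j, ∑ k ∈ Ico j (Fintype.card C / 2 + 1), K k ≤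
      ∑ k ∈ Ico j (Fintype.card C / 2 + 1), K' k) :
    ∫⁻ ω, recTime σ (fun i => S' i ω) ∂P' ≤ ∫⁻ ω, recTime σ (fun i => S i ω) ∂P := by
  rw [ET_eq h, ET_eq h']
  refine ENNReal.tsum_le_tsum fun t => ?_
  exact tsub_le_tsub_left (op_iter_le (op_G_le hK0 hK0' hK) t 0) _

end Pool.Agent.Q289.CC
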