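import Pool.Agent.Q289.CC.Comb

/-!
The labeled coupon collector with random sample sizes.
-/

set_option autoImplicit false

namespace Pool.Agent.Q289.CC

open Finset MeasureTheory ProbabilityTheory
open scoped ENNReal

/-- Every set of finite sets of coupons is an event. -/
instance instMS {C : Type} : MeasurableSpace (Finset C) := ⊤

instance instDMS {C : Type} : DiscreteMeasurableSpace (Finset C) := ⟨fun _ => trivial⟩

variable {C L : Type} [Fintype C] [DecidableEq C] [DecidableEq L]

/-- The bijection `τ` is consistent with the first `t` samples. -/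
def Consistent (σ τ : C ≃ L) (S : ℕ → Finset C) (t : ℕ) : Prop :=
  ∀ i < t, (S i).image τ = (S i).image σ

/-- The matching `σ` is recovered at time `t`. -/
def Recovered (σ : C ≃ L) (S : ℕ → Finset C) (t : ℕ) : Prop :=
  (∀ c, ∃ i < t, c ∈ S i) ∧ ∀ τ : C ≃ L, Consistent σ τ S t → τ = σ

/-- The recovery time (`∞` if the matching is never recovered). -/
noncomputable def recTime (σ : C ≃ L) (S : ℕ → Finset C) : ℝ≥0∞ :=
  ⨅ (t : ℕ) (_ : Recovered σ S t), (t : ℝ≥0∞)

/-- The samples `S 0, S 1, …` are independent, and each of them is obtained by drawing its size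
from the law `K` and then a uniform set of that size. -/
structure Sampling {Ω : Type} [MeasurableSpace Ω] (P : Measure Ω) (K : PMF ℕ)
    (S : ℕ → Ω → Finset C) : Prop where
  meas : ∀ i, Measurable (S i)
  indep : iIndepFun S P
  law : ∀ i s, P (S i ⁻¹' {s}) = K s.card / ((Fintype.card C).choose s.card : ℕ)

/-! ### recovered multisets -/

/-- The first `t` samples. -/
def msOf (S : ℕ → Finset C) (t : ℕ) : Multiset (Finset C) := (Multiset.range t).map S

omit [Fintype C] [DecidableEq C] in
theorem msOf_succ (S : ℕ → Finset C) (t : ℕ) : msOf S (t + 1) = S t ::ₘ msOf S t := by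
  unfold msOf
  rw [Multiset.range_succ, Multiset.map_cons]

omit [Fintype C] [DecidableEq C] in
theorem mem_msOf {S : ℕ → Finset C} {t : ℕ} {s : Finset C} :
    s ∈ msOf S t ↔ ∃ i < t, S i = s := by
  unfold msOf
  simp [Multiset.mem_map]

/-- The family `m` covers and separates the coupons. -/
def Rec (m : Multiset (Finset C)) : Prop :=
  (∀ c, ∃ x ∈ m, c ∈ x) ∧ ∀ c c', (∀ x ∈ m, (c ∈ x ↔ c' ∈ x)) → c = c'

omit [Fintype C] in
theorem recovered_iff (σ : C ≃ L) (S : ℕ → Finset C) (t : ℕ) :
    Recovered σ S t ↔ Rec (msOf S t) := by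
  unfold Recovered Rec
  have e1 : (∀ c, ∃ i < t, c ∈ S i) ↔ ∀ c, ∃ x ∈ msOf S t, c ∈ x := by
    refine forall_congr' fun c => ?_
    constructor
    · rintro ⟨i, hi, hc⟩
      exact ⟨S i, mem_msOf.2 ⟨i, hi, rfl⟩, hc⟩
    · rintro ⟨x, hx, hc⟩
      obtain ⟨i, hi, rfl⟩ := mem_msOf.1 hx
      exact ⟨i, hi, hc⟩
  rw [e1]
  refine and_congr_right fun _ => ?_
  constructor
  · intro h c c' hcc
    have h2 := h ((Equiv.swap c c').trans σ) (fun i hi => by
      have h3 := hcc (S i) (mem_msOf.2 ⟨i, hi, rfl⟩)
      have h4 : (S i).image (Equiv.swap c c') = S i := by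
        ext d
        rw [mem_image]
        constructor
        · rintro ⟨b, hb, rfl⟩
          rcases eq_or_ne b c with rfl | h5
          · rw [Equiv.swap_apply_left]; exact h3.1 hb
          · rcases eq_or_ne b c' with rfl | h6
            · rw [Equiv.swap_apply_right]; exact h3.2 hb
            · rw [Equiv.swap_apply_of_ne_of_ne h5 h6]; exact hb
        · intro hd
          refine ⟨Equiv.swap c c' d, ?_, Equiv.swap_apply_self _ _ _⟩
          rcases eq_or_ne d c with rfl | h5
          · rw [Equiv.swap_apply_left]; exact h3.1 hd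
          · rcases eq_or_ne d c' with rfl | h6
            · rw [Equiv.swap_apply_right]; exact h3.2 hd
            · rw [Equiv.swap_apply_of_ne_of_ne h5 h6]; exact hd
      rw [Equiv.coe_trans, ← image_image, h4])
    have h3 := congrArg (fun e : C ≃ L => e c) h2
    simp only [Equiv.trans_apply, Equiv.swap_apply_left] at h3
    exact (σ.injective h3).symm
  · intro h τ hτ
    ext c
    have h2 : c = σ.symm (τ c) := by
      apply h
      intro x hx
      obtain ⟨i, hi, rfl⟩ := mem_msOf.1 hx
      have h3 := hτ i hi
      constructor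
      · intro hc
        have h4 : τ c ∈ (S i).image σ := by
          rw [← h3]; exact mem_image_of_mem _ hc
        obtain ⟨b, hb, hb2⟩ := mem_image.1 h4
        rw [← hb2, Equiv.symm_apply_apply]
        exact hb
      · intro hc
        have h4 : τ c ∈ (S i).image τ := by
          rw [h3, mem_image]
          exact ⟨_, hc, σ.apply_symm_apply _⟩
        obtain ⟨b, hb, hb2⟩ := mem_image.1 h4
        rwa [← τ.injective hb2]
    have h3 := congrArg σ h2
    rw [σ.apply_symm_apply] at h3
    rw [h3]

theorem rec_cons (m : Multiset (Finset C)) (s : Finset C) : Rec (s ::ₘ m) ↔ Gd m s := by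
  unfold Rec Gd
  simp only [Multiset.mem_cons, exists_eq_or_imp, forall_eq_or_imp]
  constructor
  · rintro ⟨h1, h2⟩
    refine ⟨fun c hc => ?_, fun c c' hne hcc h3 => hne (h2 c c' ⟨h3, hcc⟩)⟩
    rcases h1 c with h3 | ⟨x, hx, h3⟩
    · exact h3
    · exact absurd h3 (hc x hx)
  · rintro ⟨h1, h2⟩
    refine ⟨fun c => ?_, fun c c' hcc => ?_⟩
    · by_contra hcon
      push Not at hcon
      exact hcon.1 (h1 c hcon.2)
    · by_contra hne
      exact h2 c c' hne hcc.2 hcc.1

/-! ### the sampling operator -/

/-- One more sample. -/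
noncomputable def op (K : ℕ → ℝ≥0∞) (F : Multiset (Finset C) → ℝ≥0∞) (m : Multiset (Finset C)) :
    ℝ≥0∞ :=
  ∑ s : Finset C, K s.card / ((Fintype.card C).choose s.card : ℕ) * F (s ::ₘ m)

theorem op_mono (K : ℕ → ℝ≥0∞) {F G : Multiset (Finset C) → ℝ≥0∞} (h : ∀ m, F m ≤ G m)
    (m : Multiset (Finset C)) : op K F m ≤ op K G m :=
  sum_le_sum fun _ _ => mul_le_mul_right (h _) _

theorem op_comm (K K' : ℕ → ℝ≥0∞) (F : Multiset (Finset C) → ℝ≥0∞) (m : Multiset (Finset C)) :
    op K (op K' F) m = op K' (op K F) m := by
  unfold op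
  simp only [mul_sum]
  rw [sum_comm]
  refine sum_congr rfl fun s _ => sum_congr rfl fun s' _ => ?_
  rw [Multiset.cons_swap]
  ring

theorem op_iter_mono (K : ℕ → ℝ≥0∞) (t : ℕ) {F G : Multiset (Finset C) → ℝ≥0∞}
    (h : ∀ m, F m ≤ G m) (m : Multiset (Finset C)) : (op K)^[t] F m ≤ (op K)^[t] G m := by
  induction t generalizing F G with
  | zero => exact h m
  | succ t ih =>
    rw [Function.iterate_succ_apply, Function.iterate_succ_apply]
    exact ih (op_mono K h)

theorem op_iter_comm (K K' : ℕ → ℝ≥0∞) (t : ℕ) (F : Multiset (Finset C) → ℝ≥0∞) :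
    (op K)^[t] (op K' F) = op K' ((op K)^[t] F) := by
  induction t generalizing F with
  | zero => rfl
  | succ t ih =>
    rw [Function.iterate_succ_apply, Function.iterate_succ_apply]
    have e : op K (op K' F) = op K' (op K F) := funext (op_comm K K' F)
    rw [e, ih]

theorem op_iter_le {K K' : ℕ → ℝ≥0∞} {F : Multiset (Finset C) → ℝ≥0∞}
    (h : ∀ m, op K F m ≤ op K' F m) (t : ℕ) (m : Multiset (Finset C)) :
    (op K)^[t] F m ≤ (op K')^[t] F m := by
  induction t generalizing m with
  | zero => exact le_rfl
  | succ t ih =>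
    rw [Function.iterate_succ_apply]
    calc (op K)^[t] (op K F) m ≤ (op K)^[t] (op K' F) m := op_iter_mono K t h m
      _ = op K' ((op K)^[t] F) m := by rw [op_iter_comm]
      _ ≤ op K' ((op K')^[t] F) m := op_mono K' ih m
      _ = _ := by rw [Function.iterate_succ_apply']

/-! ### the law of the samples -/

section

variable {Ω : Type} [MeasurableSpace Ω] {P : Measure Ω} [IsProbabilityMeasure P] {K : PMF ℕ}
  {S : ℕ → Ω → Finset C} (h : Sampling P K S)

include h

theorem msOf_meas (F : Multiset (Finset C) → ℝ≥0∞) (t : ℕ) :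
    Measurable (fun ω => F (msOf (fun i => S i ω) t)) := by
  have e : (fun ω => F (msOf (fun i => S i ω) t)) =
      (fun g : (i : Finset.range t) → Finset C =>
        F ((Multiset.range t).map (fun i => if hi : i ∈ Finset.range t then g ⟨i, hi⟩ else ∅))) ∘
      (fun ω (i : Finset.range t) => S i ω) := by
    funext ω
    simp only [Function.comp]
    congr 1
    unfold msOf
    refine Multiset.map_congr rfl fun i hi => ?_
    have hi' : i ∈ Finset.range t := Finset.mem_range.2 (Multiset.mem_range.1 hi)
    rw [dif_pos hi']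
  rw [e]
  refine (Measurable.of_discrete).comp ?_
  exact measurable_pi_lambda _ fun i => h.meas i

theorem law_succ (F : Multiset (Finset C) → ℝ≥0∞) (t : ℕ) :
    ∫⁻ ω, F (msOf (fun i => S i ω) (t + 1)) ∂P = ∫⁻ ω, op K F (msOf (fun i => S i ω) t) ∂P := by
  have h1 : ∀ ω, F (msOf (fun i => S i ω) (t + 1)) =
      ∑ s : Finset C, (S t ⁻¹' {s}).indicator 1 ω * F (s ::ₘ msOf (fun i => S i ω) t) := by
    intro ω
    rw [msOf_succ, sum_eq_single (S t ω)]
    · rw [Set.indicator_of_mem (by simp)]
      simp
    · intro s _ hs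
      rw [Set.indicator_of_notMem (by simpa using Ne.symm hs)]
      simp
    · intro hcon
      exact absurd (mem_univ _) hcon
  have hms : ∀ s : Finset C, MeasurableSet (S t ⁻¹' {s}) := fun s =>
    h.meas t (MeasurableSet.singleton s)
  simp only [h1]
  rw [lintegral_finsetSum]
  · unfold op
    rw [lintegral_finsetSum]
    · refine sum_congr rfl fun s _ => ?_
      rw [lintegral_const_mul _ (msOf_meas h (fun m => F (s ::ₘ m)) t)]
      have hind : IndepFun (fun ω (i : Finset.range t) => S i ω)
          (fun ω (i : ({t} : Finset ℕ)) => S i ω) P := by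
        refine h.indep.indepFun_finset (Finset.range t) {t} ?_ h.meas
        rw [Finset.disjoint_singleton_right]
        simp
      have hind2 : IndepFun (fun ω => (S t ⁻¹' {s}).indicator (1 : Ω → ℝ≥0∞) ω)
          (fun ω => F (s ::ₘ msOf (fun i => S i ω) t)) P := by
        have h3 := hind.comp
          (φ := fun g : (i : Finset.range t) → Finset C =>
            F (s ::ₘ (Multiset.range t).map (fun i => if hi : i ∈ Finset.range t then g ⟨i, hi⟩
              else ∅)))
          (ψ := fun g : (i : ({t} : Finset ℕ)) → Finset C =>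
            (({s} : Set (Finset C)).indicator (1 : Finset C → ℝ≥0∞) (g ⟨t, mem_singleton_self t⟩)))
          Measurable.of_discrete Measurable.of_discrete
        refine (h3.symm.congr ?_ ?_)
        · refine Filter.Eventually.of_forall fun ω => ?_
          simp only [Function.comp, Set.indicator]
          rfl
        · refine Filter.Eventually.of_forall fun ω => ?_
          simp only [Function.comp]
          congr 2
          unfold msOf
          refine Multiset.map_congr rfl fun i hi => ?_
          have hi' : i ∈ Finset.range t := Finset.mem_range.2 (Multiset.mem_range.1 hi)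
          rw [dif_pos hi']
      rw [lintegral_mul_eq_lintegral_mul_lintegral_of_indepFun''
        (measurable_one.indicator (hms s)).aemeasurable
        (msOf_meas h (fun m => F (s ::ₘ m)) t).aemeasurable hind2,
        lintegral_indicator_one (hms s), h.law]
    · intro s _
      exact (msOf_meas h (fun m => F (s ::ₘ m)) t).const_mul _
  · intro s _
    exact (measurable_one.indicator (hms s)).mul (msOf_meas h (fun m => F (s ::ₘ m)) t)

theorem law_iter (t : ℕ) : ∀ F : Multiset (Finset C) → ℝ≥0∞,
    ∫⁻ ω, F (msOf (fun i => S i ω) t) ∂P = (op K)^[t] F 0 := by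
  induction t with
  | zero =>
    intro F
    simp [msOf]
  | succ t ih =>
    intro F
    rw [law_succ h, ih, ← Function.iterate_succ_apply]

end

end Pool.Agent.Q289.CC
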